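import Pool.Agent.TH818.AP.Mv2
import Pool.Agent.TH818.AP.Beta

/-!
# Periods of Fermat curves at almost all rational parameters, up to any given degree and height, with a measure

The periods of the Fermat curve `x^m + y^m = 1` are, up to algebraic factors, the numbers
`B(r, s) = ∫_0^1 x^(r-1) (1-x)^(s-1) dx` with `r, s ∈ (1/m)ℤ`, and `π`.
-/

set_option autoImplicit false

namespace Pool.Agent.Results.MP_cbf1af_ag.FermatPeriods

/-- Euler's integral `B(r, s) = ∫_0^1 x^(r-1) (1-x)^(s-1) dx`. -/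
noncomputable def B (r s : ℝ) : ℝ := ∫ x in (0 : ℝ)..1, x ^ (r - 1) * (1 - x) ^ (s - 1)

/-- The `m n + 1` numbers `π` and `B(q_j, ρ_i)`, `1 ≤ j ≤ n`, `1 ≤ i ≤ m`. -/
noncomputable def periods {n m : ℕ} (ρ : Fin m → ℝ) (q : Fin n → ℚ) (x : Option (Fin n × Fin m)) : ℝ :=
  match x with
  | none => Real.pi
  | some (j, i) => B (q j) (ρ i)

/-- The `n`-tuples `q` of rational numbers in `[a, b]` with denominators at most `T` for which some nonzero polynomial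
in `m n + 1` variables with integer coefficients of absolute value at most `T ^ A`, of degree at most `d` in each
variable, takes at `π` and the numbers `B(q_j, ρ_i)` a value of absolute value at most `T ^ (-R)`. -/
def Exceptional {m : ℕ} (n d : ℕ) (ρ : Fin m → ℝ) (a b A R T : ℝ) : Set (Fin n → ℚ) :=
  {q | (∀ j, a ≤ q j ∧ q j ≤ b ∧ ((q j).den : ℝ) ≤ T) ∧
    ∃ P : MvPolynomial (Option (Fin n × Fin m)) ℤ, P ≠ 0 ∧ (∀ x, P.degreeOf x ≤ d) ∧
      (∀ s, |((P.coeff s : ℤ) : ℝ)| ≤ T ^ A) ∧ |MvPolynomial.aeval (periods ρ q) P| ≤ T ^ (-R)}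

/-- Let `[a, b] ⊂ (0, ∞)`, `n ≥ 1`, `d`, `A ≥ 0`, let `ρ_1, …, ρ_m > 0` be such that no `ρ_i` and no `ρ_i - ρ_k` (`i ≠ k`)
is an integer, and let `β > 2 - 2 / ((d + 1)^(m n + 1) + 1)`. There are `R` and `C` such that for all `T ≥ 1` the number of
exceptional `n`-tuples is at most `C T^(2(n - 1) + β)`. -/
theorem result (n m d : ℕ) (hn : 1 ≤ n) (ρ : Fin m → ℝ) (hρ : ∀ i, 0 < ρ i) (h1 : ∀ i, ∀ z : ℤ, ρ i ≠ z)
    (h2 : ∀ i k, i ≠ k → ∀ z : ℤ, ρ i - ρ k ≠ z) (a b : ℝ) (ha : 0 < a) (hab : a < b) (A β : ℝ) (hA : 0 ≤ A)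
    (hβ : 2 - 2 / (((d : ℝ) + 1) ^ (m * n + 1) + 1) < β) :
    ∃ R C : ℝ, ∀ T : ℝ, 1 ≤ T → (Exceptional n d ρ a b A R T).Finite ∧
      ((Exceptional n d ρ a b A R T).ncard : ℝ) ≤ C * T ^ (2 * ((n : ℝ) - 1) + β) := by
  obtain ⟨R, C, h⟩ := TH818.AP.polys (fun i : Fin m => TH818.AP.Bt (ρ i)) a b hab
    (fun i t ht => TH818.AP.betaAn (ρ i) t (hρ i) (lt_of_lt_of_le ha ht.1))
    (TH818.AP.beta m d ρ a b hρ h1 h2 ha hab) n hn A β hA hβ
  refine ⟨R, C, fun T hT => ?_⟩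
  have hset : Exceptional n d ρ a b A R T =
      {t : Fin n → ℚ | (∀ j, a ≤ t j ∧ t j ≤ b ∧ ((t j).den : ℝ) ≤ T) ∧
        ∃ P : MvPolynomial (Option (Fin n × Fin m)) ℤ, P ≠ 0 ∧ (∀ x, P.degreeOf x ≤ d) ∧
          (∀ u, |((P.coeff u : ℤ) : ℝ)| ≤ T ^ A) ∧
          |MvPolynomial.aeval (fun x : Option (Fin n × Fin m) =>
            x.elim Real.pi fun y => TH818.AP.Bt (ρ y.2) (t y.1)) P| ≤ T ^ (-R)} := by
    ext q
    simp only [Exceptional, Set.mem_ofPred_eq]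
    refine and_congr_right fun hq => ?_
    have heq : (fun x : Option (Fin n × Fin m) => x.elim Real.pi fun y => TH818.AP.Bt (ρ y.2) (q y.1)) =
        periods ρ q := by
      funext x
      cases x with
      | none => rfl
      | some y => exact (TH818.AP.betaInt (ρ y.2) (q y.1) (hρ y.2) (lt_of_lt_of_le ha (hq y.1).1)).symm
    rw [heq]
  have := h T hT
  rw [← hset] at this
  exact this

end Pool.Agent.Results.MP_cbf1af_ag.FermatPeriods
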