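import Pool.Agent.TH164.Un.Un17

/-!
# Products of K3 surfaces and abelian varieties with complex multiplication by one field

Let `E` be an imaginary quadratic field and let `E₀` be an elliptic curve with complex
multiplication by `E` over the field of algebraic numbers. With algebraic coefficients
`H¹(E₀) = ψ ⊕ ψ'`, where `ψ` is of type `(1, 0)`. Let `ω` be the period of `ψ`.

Let `T_j`, `j ∈ J`, be pairwise non-isomorphic motives over the algebraic numbers with
`End(T_j) = E`, of even rank `m_j` over `E`, of one of the following kinds.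

(A) The transcendental part of `H²(X)(1)`, where `X` is a K3 surface or a hyperkähler variety, for
instance the very general isotrivial elliptic K3 surface `y² = x³ + f₁₂(t)` (`m = 10`, `E = ℚ(√-3)`).

(B) `Hom_E(H¹(A), H¹(E₀))`, where `A` is an abelian variety of dimension `m` with
`End(A) ⊗ ℚ = E` and signature `(m - 1, 1)`, for instance the Jacobian of a general curve
`y³ = f₆(x)` (`m = 4`).

With algebraic coefficients `T_j = W_j ⊕ W_j*`, where `W_j` has Hodge types `(1, -1)` (once) and
`(0, 0)`. By Zarhin and Ribet the Mumford-Tate group of the sum of the `T_j` and of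
`H¹(E₀)` is over the algebraic numbers
`G = {((g_j), s, c) : g_j ∈ GL(W_j), det(g_j) · c = s²}`, where `s` is the action on `ψ` and `c`
the action on `ℚ(-1)`. Let `X_j` be the period matrix of `W_j`.

* `hWustholz`: for `1 ≤ p < m_j` the motive `Λᵖ W_j ⊗ ψ'` is a direct factor of `H¹` of an abelian
  variety over the algebraic numbers; its period matrix is the matrix of the minors of size `p` of
  `X_j`, multiplied with the period of `ψ'`. For fixed `p` the `Λᵖ W_j`, `m_j > p`, are irreducible
  and pairwise non-isomorphic representations of `G`. By the theorem of Wüstholz all linear relations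
  with algebraic coefficients between the minors of size `p` of all these `X_j` are trivial.
* `hdet`: the determinant of `W_j` is `ψ²(1)`.
* `hChudnovsky`: `ω` and `π` are algebraically independent.

The theorem: `G` is contained in every algebraic subgroup over the algebraic numbers which has a
torsor that contains the comparison isomorphism.

The conjecture of Grothendieck says that the closure of the point given by the periods, over the
algebraic numbers, is the whole torsor of the Mumford-Tate group. The theorem says that this point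
lies in no torsor of a smaller group.

The reason is algebraic: a Lie subalgebra of the sum of the `sl(m_j)`, `m_j` even, for which
all `Λᵖ W_j` are irreducible, and pairwise non-isomorphic for fixed `p`, is the sum of the `sl(m_j)`.
-/

set_option autoImplicit false
set_option linter.unusedSectionVars false

namespace Pool.Agent.Results.MP_cbf1af_ag.ProductsOfUnitaryMotives

open Matrix

section defs

variable {J : Type} [Fintype J] [DecidableEq J] {m : J → ℕ}

/-- All linear relations with algebraic coefficients between the minors of size `p` of the `X_j` with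
`m_j > p` hold for all families of matrices. -/
def OnlyTrivialRelations (p : ℕ) (X : ∀ j, Matrix (Fin (m j)) (Fin (m j)) ℂ) : Prop :=
  ∀ B : ∀ j, (Fin p → Fin (m j)) → (Fin p → Fin (m j)) → ℂ,
    (∀ j s t, IsAlgebraic ℚ (B j s t)) → (∀ j, m j ≤ p → B j = 0) →
    ∑ j, ∑ s, ∑ t, B j s t * ((X j).submatrix s t).det = 0 →
    ∀ j, ∀ Y : Matrix (Fin (m j)) (Fin (m j)) ℂ, ∑ s, ∑ t, B j s t * (Y.submatrix s t).det = 0

/-- The block diagonal matrix with blocks `g_j` and `c_1`, `c_2`. -/
def block (g : ∀ j, Matrix (Fin (m j)) (Fin (m j)) ℂ) (c : Fin 2 → ℂ) :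
    Matrix ((Σ j, Fin (m j)) ⊕ Fin 2) ((Σ j, Fin (m j)) ⊕ Fin 2) ℂ :=
  Matrix.fromBlocks (Matrix.blockDiagonal' g) 0 0 (Matrix.diagonal c)

variable {N : Type} [Fintype N] [DecidableEq N]

/-- A subgroup of `GL_N(ℂ)` defined by polynomials with algebraic coefficients. -/
def IsAlgebraicSubgroup (H : Subgroup (GL N ℂ)) : Prop :=
  ∃ I : Set (MvPolynomial (N × N) ℂ), (∀ p ∈ I, ∀ m, IsAlgebraic ℚ (p.coeff m)) ∧
    ∀ g : GL N ℂ, g ∈ H ↔ ∀ p ∈ I, MvPolynomial.eval (fun b => (g : Matrix N N ℂ) b.1 b.2) p = 0

/-- The matrix `P` belongs to a torsor `H · A⁻¹` of `H` defined over the algebraic numbers. -/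
def HasPoint (P : Matrix N N ℂ) (H : Subgroup (GL N ℂ)) : Prop :=
  ∃ A : Matrix N N ℂ, (∀ i j, IsAlgebraic ℚ (A i j)) ∧ ∃ g ∈ H, (g : Matrix N N ℂ) = P * A

end defs

section proof

variable {J : Type} [Fintype J] [DecidableEq J] {m : J → ℕ}

theorem one_of {p : ℕ} {X : ∀ j, Matrix (Fin (m j)) (Fin (m j)) ℂ}
    (h : OnlyTrivialRelations p X) {j : J} (hj : p < m j) :
    Pool.Agent.TH164.Un.OnlyTrivial p (X j) := by
  intro B hB h1 Y
  have h2 := h (Function.update (fun _ => 0) j B) (by
    intro i s t
    by_cases hij : i = j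
    · subst hij
      rw [Function.update_self]
      exact hB s t
    · rw [Function.update_of_ne hij]
      exact isAlgebraic_zero) (by
    intro i hi
    by_cases hij : i = j
    · subst hij
      omega
    · rw [Function.update_of_ne hij]) (by
    rw [Finset.sum_eq_single j]
    · rw [Function.update_self]
      exact h1
    · intro i _ hij
      rw [Function.update_of_ne hij]
      refine Finset.sum_eq_zero fun s _ => Finset.sum_eq_zero fun t _ => ?_
      rw [Pi.zero_apply, Pi.zero_apply, zero_mul]
    · intro h3
      exact absurd (Finset.mem_univ _) h3) j Y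
  rw [Function.update_self] at h2
  exact h2

theorem two_of {p : ℕ} {X : ∀ j, Matrix (Fin (m j)) (Fin (m j)) ℂ}
    (h : OnlyTrivialRelations p X) {i j : J} (hij : i ≠ j) (hi : p < m i) (hj : p < m j) :
    Pool.Agent.TH164.Un.OnlyTrivial2 p (X i) (X j) := by
  intro B B₂ hB hB₂ h1 Y Y₂
  have h0 := h (Function.update (Function.update (fun _ => 0) i B) j B₂) (by
    intro l s t
    by_cases hlj : l = j
    · subst hlj
      rw [Function.update_self]
      exact hB₂ s t
    · rw [Function.update_of_ne hlj]
      by_cases hli : l = i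
      · subst hli
        rw [Function.update_self]
        exact hB s t
      · rw [Function.update_of_ne hli]
        exact isAlgebraic_zero) (by
    intro l hl
    by_cases hlj : l = j
    · subst hlj
      omega
    · rw [Function.update_of_ne hlj]
      by_cases hli : l = i
      · subst hli
        omega
      · rw [Function.update_of_ne hli]) (by
    rw [Finset.sum_eq_add i j hij]
    · rw [Function.update_of_ne hij, Function.update_self, Function.update_self]
      exact h1
    · rintro l _ ⟨hli, hlj⟩
      rw [Function.update_of_ne hlj, Function.update_of_ne hli]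
      refine Finset.sum_eq_zero fun s _ => Finset.sum_eq_zero fun t _ => ?_
      rw [Pi.zero_apply, Pi.zero_apply, zero_mul]
    · intro h3
      exact absurd (Finset.mem_univ _) h3
    · intro h3
      exact absurd (Finset.mem_univ _) h3)
  have h2 := h0 i Y
  have h3 := h0 j Y₂
  rw [Function.update_of_ne hij, Function.update_self] at h2
  rw [Function.update_self] at h3
  exact ⟨h2, h3⟩

end proof

/-- **Theorem.** For `j ∈ J`, where `J` has at least two elements, let `m_j > 0` be even and let `X_j`
be an invertible complex matrix of size `m_j`. Suppose that for all `p ≥ 1` all linear relations with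
algebraic coefficients between the minors of size `p` of the `X_j` with `m_j > p` hold for all
families of matrices. Let `ω` be a complex number such that `ω` and `2πi` are algebraically
independent, and let `det(X_j) · 2πi = α_j · ω²` with algebraic `α_j`. Let `H` be an
algebraic subgroup of `GL`, defined over the algebraic numbers, which has a torsor over the algebraic
numbers which contains the block diagonal matrix with blocks `X_j`, `ω`, `2πi`. Then `H` contains
all block diagonal matrices with blocks `g_j`, `s`, `c`, for which `det(g_j) · c = s²` for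
all `j`. -/
theorem result {J : Type} [Fintype J] [DecidableEq J] [Nontrivial J] {m : J → ℕ}
    (hm : ∀ j, Even (m j)) (hm0 : ∀ j, 0 < m j) (X : ∀ j, GL (Fin (m j)) ℂ)
    (hWustholz : ∀ p, 1 ≤ p → OnlyTrivialRelations p fun j => (X j).val)
    {ω : ℂ} {α : J → ℂ} (hα : ∀ j, IsAlgebraic ℚ (α j))
    (hdet : ∀ j, (X j).val.det * (2 * Real.pi * Complex.I) = α j * ω ^ 2)
    (hChudnovsky : AlgebraicIndependent ℚ ![ω, 2 * Real.pi * Complex.I])
    (H : Subgroup (GL ((Σ j, Fin (m j)) ⊕ Fin 2) ℂ)) (hH : IsAlgebraicSubgroup H)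
    (hP : HasPoint (block (fun j => (X j).val) ![ω, 2 * Real.pi * Complex.I]) H)
    (g : ∀ j, GL (Fin (m j)) ℂ) {s c : ℂ} (hs : s ≠ 0) (hc : c ≠ 0)
    (hg : ∀ j, (g j).val.det * c = s ^ 2) :
    ∃ y ∈ H, y.val = block (fun j => (g j).val) ![s, c] := by
  obtain ⟨B, hB, g₁, hg₁, hPB⟩ := hP
  have hB0 : B.det ≠ 0 := by
    have h4 := (Matrix.isUnit_iff_isUnit_det _).1 g₁.isUnit
    rw [hPB, det_mul, isUnit_iff_ne_zero] at h4
    exact right_ne_zero_of_mul h4
  have hB1 : B * B⁻¹ = 1 := Matrix.mul_nonsing_inv _ (isUnit_iff_ne_zero.2 hB0)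
  have hHal : Pool.Agent.TH119.MX.AlgGrp Pool.Agent.TH164.A1.QA (Pool.Agent.TH164.A1.carr H) := by
    refine Pool.Agent.TH164.A1.algGrp_carr ?_
    obtain ⟨I, h4, h6⟩ := hH
    exact ⟨I, fun p hp m => Pool.Agent.TH164.A1.mem_QA.2 (h4 p hp m), h6⟩
  have hX : ∀ j, (X j).val * ((X j)⁻¹).val = 1 := fun j => by
    rw [← Units.val_mul, mul_inv_cancel, Units.val_one]
  have hz : ∀ i, (![ω, 2 * Real.pi * Complex.I] : Fin 2 → ℂ) i ≠ 0 := fun i h => by
    have h1 := hChudnovsky.transcendental i
    rw [h] at h1
    exact h1 isAlgebraic_zero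
  have T : Pool.Agent.TH164.Un.Dat (Pool.Agent.TH164.A1.carr H) (fun j => (X j).val)
      (fun j => ((X j)⁻¹).val) ![ω, 2 * Real.pi * Complex.I] :=
    { hm := hm
      hm0 := hm0
      hH := hHal
      hX := hX
      der := fun d δ => Pool.Agent.TH164.Un.Rel_tor hHal hX hz hB1
        (Pool.Agent.TH164.A1.inv_mem_entries fun i j => Pool.Agent.TH164.A1.mem_QA.2 (hB i j))
        (show Pool.Agent.TH164.Un.bk (fun j => (X j).val) ![ω, 2 * Real.pi * Complex.I] * B ∈
          Pool.Agent.TH164.A1.carr H from ⟨g₁, hg₁, hPB⟩) hα hdet d δ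
      one := fun j p hp hj => one_of (hWustholz p hp) hj
      two := fun i j hij p hp hi hj => two_of (hWustholz p hp) hij hi hj }
  have h5 := Pool.Agent.TH164.Un.pres_all (T.all hz hChudnovsky) (fun j => by
    obtain ⟨r, hr⟩ := hm j
    have := hm0 j
    omega) (fun j => (g j).val) ![s, c] (fun i => by
    fin_cases i
    · exact hs
    · exact hc) hg
  have e1 : (fun j => (g j).val : ∀ j, Matrix (Fin (m j)) (Fin (m j)) ℂ) *
      (fun j => ((g j)⁻¹).val) = 1 := by
    funext j
    rw [Pi.mul_apply, ← Units.val_mul, mul_inv_cancel, Units.val_one, Pi.one_apply]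
  have e2 : (fun j => ((g j)⁻¹).val : ∀ j, Matrix (Fin (m j)) (Fin (m j)) ℂ) *
      (fun j => (g j).val) = 1 := by
    funext j
    rw [Pi.mul_apply, ← Units.val_mul, inv_mul_cancel, Units.val_one, Pi.one_apply]
  have e3 : (![s, c] * ![s⁻¹, c⁻¹] : Fin 2 → ℂ) = 1 := by
    funext i
    fin_cases i
    · exact mul_inv_cancel₀ hs
    · exact mul_inv_cancel₀ hc
  have e4 : (![s⁻¹, c⁻¹] * ![s, c] : Fin 2 → ℂ) = 1 := by
    rw [mul_comm, e3]
  obtain ⟨y, hy1, hy2⟩ := hHal.mem_of_pres h5
    (g' := Pool.Agent.TH164.Un.bk (fun j => ((g j)⁻¹).val) ![s⁻¹, c⁻¹])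
    (by rw [Pool.Agent.TH164.Un.bk_mul, e1, e3, Pool.Agent.TH164.Un.bk_one])
    (by rw [Pool.Agent.TH164.Un.bk_mul, e2, e4, Pool.Agent.TH164.Un.bk_one])
  exact ⟨y, hy1, hy2⟩

end Pool.Agent.Results.MP_cbf1af_ag.ProductsOfUnitaryMotives
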