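import Pool.Agent.TH164.Un.Un20

/-!
# K3 surfaces and abelian varieties with complex multiplication by a CM field: reduction to the torus

Let `E` be a CM field of degree `2g ≥ 4` with a CM type `Φ`, and let `T` be a motive over the field
of algebraic numbers with `End(T) = E`, of even rank `m` over `E`, of one of the following kinds.

(A) The transcendental part of `H²(X)(1)`, where `X` is a K3 surface or a hyperkähler variety, for
instance the very general K3 surface `y² = x³ + a x + t¹¹ - b` (`E = ℚ(ζ₁₁)`, `g = 5`, `m = 2`).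

(B) `H¹(A)`, where `A` is an abelian variety of signature `(m - 1, 1)` at one place of the totally
real subfield and definite at the other ones.

With algebraic coefficients `T = ⊕_{σ ∈ Φ} (W_σ ⊕ W_σ*)` (up to a twist in case (B)). The derived
group of the Mumford-Tate group is, over the algebraic numbers, the product of the `SL(W_σ)`
(Zarhin in case (A)). Let `X_σ` be the period matrix of `W_σ`.

* `hMinors`: for `1 ≤ p < m` a twist of `Λᵖ W_σ` is a direct factor of `H¹` of an abelian variety
  over the algebraic numbers (a factor of the Kuga-Satake variety in case (A)), and irreducible. By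
  the theorem of Wüstholz all linear relations with algebraic coefficients between the minors of
  size `p` of `X_σ` are trivial.
* `hProducts`: for `σ ≠ τ` in `Φ` a twist of `W_σ ⊗ W_τ` is a direct factor of `H¹` of an abelian
  variety over the algebraic numbers, and irreducible. By the theorem of Wüstholz the products
  of an entry of `X_σ` and an entry of `X_τ` are linearly independent over the algebraic numbers.

The theorem: let `H` be an algebraic subgroup over the algebraic numbers which has a torsor
that contains the comparison isomorphism of the sum of the `W_σ`. Then it depends only on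
the determinants of the `g_σ` whether `(g_σ)` belongs to `H`. In particular `H` contains the product of
the `SL(W_σ)`, the derived group of the Mumford-Tate group. So `Ω^dRB = Ω^And` holds for `T` if
and only if it holds for the motive with complex multiplication generated by the determinants of
the `W_σ`.

The reason is algebraic. Goursat's lemma reduces the claim to the graphs of isomorphisms
`sl(W_σ) → sl(W_τ)`, and on a graph the representation `W_σ ⊗ W_τ` is reducible: the
Casimir tensor commutes with the Lie algebra and is not a scalar.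
-/

set_option autoImplicit false
set_option linter.unusedSectionVars false

namespace Pool.Agent.Results.MP_cbf1af_ag.UnitaryAnyCMField

open Matrix

section defs

/-- All linear relations with algebraic coefficients between the minors of size `p` of `X` hold for
all matrices. -/
def OnlyTrivialRelations {m : ℕ} (p : ℕ) (X : Matrix (Fin m) (Fin m) ℂ) : Prop :=
  ∀ B : (Fin p → Fin m) → (Fin p → Fin m) → ℂ, (∀ s t, IsAlgebraic ℚ (B s t)) →
    ∑ s, ∑ t, B s t * (X.submatrix s t).det = 0 →
    ∀ Y : Matrix (Fin m) (Fin m) ℂ, ∑ s, ∑ t, B s t * (Y.submatrix s t).det = 0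

/-- The products of an entry of `X` and an entry of `Y` are linearly independent over the algebraic
numbers. -/
def IndependentProducts {m n : ℕ} (X : Matrix (Fin m) (Fin m) ℂ) (Y : Matrix (Fin n) (Fin n) ℂ) :
    Prop :=
  ∀ B : (Fin m × Fin n) × (Fin m × Fin n) → ℂ, (∀ q, IsAlgebraic ℚ (B q)) →
    ∑ q, B q * (X q.1.1 q.2.1 * Y q.1.2 q.2.2) = 0 → B = 0

variable {N : Type} [Fintype N] [DecidableEq N]

/-- A subgroup of `GL_N(ℂ)` defined by polynomials with algebraic coefficients. -/
def IsAlgebraicSubgroup (H : Subgroup (GL N ℂ)) : Prop :=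
  ∃ I : Set (MvPolynomial (N × N) ℂ), (∀ p ∈ I, ∀ m, IsAlgebraic ℚ (p.coeff m)) ∧
    ∀ g : GL N ℂ, g ∈ H ↔ ∀ p ∈ I, MvPolynomial.eval (fun b => (g : Matrix N N ℂ) b.1 b.2) p = 0

/-- The matrix `P` belongs to a torsor `H · A⁻¹` of `H` defined over the algebraic numbers. -/
def HasPoint (P : Matrix N N ℂ) (H : Subgroup (GL N ℂ)) : Prop :=
  ∃ A : Matrix N N ℂ, (∀ i j, IsAlgebraic ℚ (A i j)) ∧ ∃ g ∈ H, (g : Matrix N N ℂ) = P * A

end defs

/-- **Theorem.** For `j ∈ J`, where `J` has at least two elements, let `m_j > 0` be even and let `X_j`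
be an invertible complex matrix of size `m_j`, such that for `1 ≤ p < m_j` all linear relations with
algebraic coefficients between the minors of size `p` of `X_j` hold for all matrices, and
such that for `i ≠ j` the products of an entry of `X_i` and an entry of `X_j` are linearly independent
over the algebraic numbers. Let `H` be an algebraic subgroup of `GL`, defined over the
algebraic numbers, which has a torsor over the algebraic numbers which contains the block diagonal
matrix with blocks `X_j`. If `H` contains the block diagonal matrix with blocks `h_j`, then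
`H` contains all block diagonal matrices with blocks `g_j` such that `det(g_j) = det(h_j)` for
all `j`. In particular, `H` contains all block diagonal matrices whose blocks have determinant
one. -/
theorem result {J : Type} [Fintype J] [DecidableEq J] [Nontrivial J] {m : J → ℕ}
    (hm : ∀ j, Even (m j)) (hm0 : ∀ j, 0 < m j) (X : ∀ j, GL (Fin (m j)) ℂ)
    (hMinors : ∀ j p, 1 ≤ p → p < m j → OnlyTrivialRelations p (X j).val)
    (hProducts : ∀ i j, i ≠ j → IndependentProducts (X i).val (X j).val)
    (H : Subgroup (GL (Σ j, Fin (m j)) ℂ)) (hH : IsAlgebraicSubgroup H)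
    (hP : HasPoint (Matrix.blockDiagonal' fun j => (X j).val) H)
    (g h : ∀ j, GL (Fin (m j)) ℂ) (hgh : ∀ j, (g j).val.det = (h j).val.det)
    (hh : ∃ y ∈ H, y.val = Matrix.blockDiagonal' fun j => (h j).val) :
    ∃ y ∈ H, y.val = Matrix.blockDiagonal' fun j => (g j).val := by
  obtain ⟨B, hB, g₁, hg₁, hPB⟩ := hP
  have hB0 : B.det ≠ 0 := by
    have h4 := (Matrix.isUnit_iff_isUnit_det _).1 g₁.isUnit
    rw [hPB, det_mul, isUnit_iff_ne_zero] at h4
    exact right_ne_zero_of_mul h4
  have hB1 : B * B⁻¹ = 1 := Matrix.mul_nonsing_inv _ (isUnit_iff_ne_zero.2 hB0)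
  have hHal : Pool.Agent.TH119.MX.AlgGrp Pool.Agent.TH164.A1.QA (Pool.Agent.TH164.A1.carr H) := by
    refine Pool.Agent.TH164.A1.algGrp_carr ?_
    obtain ⟨I, h4, h6⟩ := hH
    exact ⟨I, fun p hp m => Pool.Agent.TH164.A1.mem_QA.2 (h4 p hp m), h6⟩
  have hX : ∀ j, (X j).val * ((X j)⁻¹).val = 1 := fun j => by
    rw [← Units.val_mul, mul_inv_cancel, Units.val_one]
  have T : Pool.Agent.TH164.Un.Det (Pool.Agent.TH164.A1.carr H) (fun j => (X j).val)
      (fun j => ((X j)⁻¹).val) :=
    { hm := hm
      hm0 := hm0
      hH := hHal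
      hX := hX
      der := fun d δ => Pool.Agent.TH164.Un.Re_tor hHal hX hB1
        (Pool.Agent.TH164.A1.inv_mem_entries fun i j => Pool.Agent.TH164.A1.mem_QA.2 (hB i j))
        (show Pool.Agent.TH164.Un.b2 (fun j => (X j).val) * B ∈
          Pool.Agent.TH164.A1.carr H from ⟨g₁, hg₁, hPB⟩) d δ
      one := hMinors
      two := hProducts }
  -- the quotient has determinants one
  set k : ∀ j, GL (Fin (m j)) ℂ := fun j => g j * (h j)⁻¹ with hk
  have hkd : ∀ j, (k j).val.det = 1 := by
    intro j
    have h1 : (h j).val.det * ((h j)⁻¹).val.det = 1 := by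
      rw [← Matrix.det_mul, ← Units.val_mul, mul_inv_cancel, Units.val_one, Matrix.det_one]
    rw [hk, Units.val_mul, Matrix.det_mul, hgh, h1]
  have h5 := Pool.Agent.TH164.Un.pre_sls (fun d j y hy => T.single d j y hy) hm0
    (fun j => (k j).val) hkd
  have e1 : (fun j => (k j).val : ∀ j, Matrix (Fin (m j)) (Fin (m j)) ℂ) *
      (fun j => ((k j)⁻¹).val) = 1 := by
    funext j
    rw [Pi.mul_apply, ← Units.val_mul, mul_inv_cancel, Units.val_one, Pi.one_apply]
  have e2 : (fun j => ((k j)⁻¹).val : ∀ j, Matrix (Fin (m j)) (Fin (m j)) ℂ) *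
      (fun j => (k j).val) = 1 := by
    funext j
    rw [Pi.mul_apply, ← Units.val_mul, inv_mul_cancel, Units.val_one, Pi.one_apply]
  obtain ⟨y, hy1, hy2⟩ := hHal.mem_of_pres h5
    (g' := Pool.Agent.TH164.Un.b2 (fun j => ((k j)⁻¹).val))
    (by rw [Pool.Agent.TH164.Un.b2_mul, e1, Pool.Agent.TH164.Un.b2_one])
    (by rw [Pool.Agent.TH164.Un.b2_mul, e2, Pool.Agent.TH164.Un.b2_one])
  obtain ⟨v, hv1, hv2⟩ := hh
  refine ⟨y * v, H.mul_mem hy1 hv1, ?_⟩
  rw [Units.val_mul, hv2]
  have h6 : y.val = Pool.Agent.TH164.Un.b2 (fun j => (k j).val) := hy2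
  rw [h6]
  change Pool.Agent.TH164.Un.b2 (fun j => (k j).val) *
    Pool.Agent.TH164.Un.b2 (fun j => (h j).val) = Pool.Agent.TH164.Un.b2 (fun j => (g j).val)
  rw [Pool.Agent.TH164.Un.b2_mul]
  congr 1
  funext j
  rw [Pi.mul_apply, hk, ← Units.val_mul, inv_mul_cancel_right]

end Pool.Agent.Results.MP_cbf1af_ag.UnitaryAnyCMField
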